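import Mathlib

/-!
# Primary conjugacy is not transitive in cancellative semigroups

The semigroup generated by `u, v, x, y = x⁻¹ v u` in the free group on `u, v, x`. One has
`u v ~ v u = x y ~ y x`, but `u v` and `y x` are not primarily conjugate.
-/

set_option autoImplicit false

namespace Pool.Agent.Results.MP_36d240_al.PrimaryConjugacy

/-- primary conjugacy: `a = u v` and `b = v u` for some `u, v` in the semigroup with an adjoined
identity -/
def PConj {S : Type} [Semigroup S] (a b : S) : Prop :=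
  ∃ u v : WithOne S, (a : WithOne S) = u * v ∧ (b : WithOne S) = v * u

lemma pConj_iff {S : Type} [Semigroup S] (a b : S) :
    PConj a b ↔ a = b ∨ ∃ g h : S, a = g * h ∧ b = h * g := by
  constructor
  · rintro ⟨g, h, h1, h2⟩
    induction g using WithOne.recOneCoe with
    | one =>
      left
      rw [one_mul] at h1
      rw [mul_one] at h2
      exact WithOne.coe_inj.1 (h1.trans h2.symm)
    | coe g =>
      induction h using WithOne.recOneCoe with
      | one =>
        left
        rw [mul_one] at h1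
        rw [one_mul] at h2
        exact WithOne.coe_inj.1 (h1.trans h2.symm)
      | coe h =>
        right
        refine ⟨g, h, ?_, ?_⟩
        · exact_mod_cast h1
        · exact_mod_cast h2
  · rintro (rfl | ⟨g, h, rfl, rfl⟩)
    · exact ⟨1, a, by simp, by simp⟩
    · exact ⟨g, h, by simp, by simp⟩

/-- the free group -/
abbrev F := FreeGroup (Fin 3)

/-- the four generators -/
def gen : Fin 4 → F := ![FreeGroup.of 0, FreeGroup.of 1, FreeGroup.of 2,
  (FreeGroup.of 2)⁻¹ * FreeGroup.of 1 * FreeGroup.of 0]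

/-- the semigroup -/
def S : Subsemigroup F := Subsemigroup.closure (Set.range gen)

/-- the degree -/
def deg : F →* Multiplicative ℤ := FreeGroup.lift fun _ => Multiplicative.ofAdd 1

lemma deg_gen (i : Fin 4) : (deg (gen i)).toAdd = 1 := by
  fin_cases i <;> simp [deg, gen]

lemma mem_S {s : F} (hs : s ∈ S) : (1 : ℤ) ≤ (deg s).toAdd ∧
    ((deg s).toAdd = 1 → ∃ i, s = gen i) := by
  induction hs using Subsemigroup.closure_induction with
  | mem x hx =>
    obtain ⟨i, rfl⟩ := hx
    rw [deg_gen]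
    exact ⟨le_refl _, fun _ => ⟨i, rfl⟩⟩
  | mul x y _ _ hx hy =>
    rw [map_mul, toAdd_mul]
    refine ⟨by linarith [hx.1, hy.1], fun h => ?_⟩
    linarith [hx.1, hy.1]

lemma gen_mem (i : Fin 4) : gen i ∈ S := Subsemigroup.subset_closure ⟨i, rfl⟩

lemma finite_check : ∀ i j : Fin 4, ¬ (gen 0 * gen 1 = gen i * gen j ∧
    gen 3 * gen 2 = gen j * gen i) := by
  decide

lemma not_pConj : ¬ PConj (⟨gen 0 * gen 1, mul_mem (gen_mem 0) (gen_mem 1)⟩ : S)
    ⟨gen 3 * gen 2, mul_mem (gen_mem 3) (gen_mem 2)⟩ := by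
  rw [pConj_iff]
  rintro (h | ⟨⟨g, hg⟩, ⟨h, hh⟩, h1, h2⟩)
  · have h1 : gen 0 * gen 1 = gen 3 * gen 2 := congrArg Subtype.val h
    exact absurd h1 (by decide)
  · have h3 : gen 0 * gen 1 = g * h := congrArg Subtype.val h1
    have h4 : gen 3 * gen 2 = h * g := congrArg Subtype.val h2
    have h5 := congrArg (fun z => (deg z).toAdd) h3
    simp only [map_mul, toAdd_mul, deg_gen] at h5
    obtain ⟨k1, k2⟩ := mem_S hg
    obtain ⟨k3, k4⟩ := mem_S hh
    obtain ⟨i, rfl⟩ := k2 (by linarith)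
    obtain ⟨j, rfl⟩ := k4 (by linarith)
    exact finite_check i j ⟨h3, h4⟩

/-- **Primary conjugacy is not transitive, even for semigroups embeddable in a group.** -/
theorem result : ∃ (S : Type) (_ : Semigroup S),
    (∀ a b c : S, (a * c = b * c → a = b) ∧ (c * a = c * b → a = b)) ∧
    (∃ (G : Type) (_ : Group G) (f : S →ₙ* G), Function.Injective f) ∧
    ∃ a b c : S, PConj a b ∧ PConj b c ∧ ¬ PConj a c := by
  refine ⟨S, inferInstance, fun a b c => ⟨fun h => ?_, fun h => ?_⟩,
    ⟨F, inferInstance, MulMemClass.subtype S, Subtype.val_injective⟩,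
    ⟨gen 0 * gen 1, mul_mem (gen_mem 0) (gen_mem 1)⟩,
    ⟨gen 1 * gen 0, mul_mem (gen_mem 1) (gen_mem 0)⟩,
    ⟨gen 3 * gen 2, mul_mem (gen_mem 3) (gen_mem 2)⟩, ?_, ?_, not_pConj⟩
  · exact Subtype.ext (mul_right_cancel (congrArg Subtype.val h : (a : F) * c = b * c))
  · exact Subtype.ext (mul_left_cancel (congrArg Subtype.val h : (c : F) * a = c * b))
  · rw [pConj_iff]
    exact Or.inr ⟨⟨_, gen_mem 0⟩, ⟨_, gen_mem 1⟩, rfl, rfl⟩
  · rw [pConj_iff]
    refine Or.inr ⟨⟨_, gen_mem 2⟩, ⟨_, gen_mem 3⟩, Subtype.ext ?_, rfl⟩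
    show gen 1 * gen 0 = gen 2 * gen 3
    decide

end Pool.Agent.Results.MP_36d240_al.PrimaryConjugacy
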